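import Pool.Agent.Lib.MP_17d4d1_pr.C.Iface

set_option autoImplicit false

/-!
# PACK: packed numbers

Digits in base 1024 and sets as binary numbers; every statement by induction on the number of
digits, splitting off the lowest digit.
-/

namespace Pool.Agent.Lib.MP_17d4d1_pr.C.H74

open Finset Pool.Agent.Lib.MP_17d4d1_pr.C

lemma land_digit (k a b A B : ℕ) (ha : a < 2 ^ k) (hb : b < 2 ^ k) :
    (a + 2 ^ k * A) &&& (b + 2 ^ k * B) = (a &&& b) + 2 ^ k * (A &&& B) := by
  have hk : 0 < 2 ^ k := by positivity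
  have h1 : ((a + 2 ^ k * A) &&& (b + 2 ^ k * B)) % 2 ^ k = a &&& b := by
    rw [Nat.and_mod_two_pow, Nat.add_mul_mod_self_left, Nat.add_mul_mod_self_left,
      Nat.mod_eq_of_lt ha, Nat.mod_eq_of_lt hb]
  have h2 : ((a + 2 ^ k * A) &&& (b + 2 ^ k * B)) / 2 ^ k = A &&& B := by
    rw [Nat.and_div_two_pow, Nat.add_mul_div_left _ _ hk, Nat.add_mul_div_left _ _ hk,
      Nat.div_eq_of_lt ha, Nat.div_eq_of_lt hb, Nat.zero_add, Nat.zero_add]
  have h3 := Nat.mod_add_div ((a + 2 ^ k * A) &&& (b + 2 ^ k * B)) (2 ^ k)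
  rw [h1, h2] at h3
  exact h3.symm

lemma sum_digit (n b : ℕ) (c : Fin (n + 1) → ℕ) :
    ∑ i, c i * b ^ (i : ℕ) = c 0 + b * ∑ i : Fin n, c i.succ * b ^ (i : ℕ) := by
  rw [Fin.sum_univ_succ, Finset.mul_sum]
  simp only [Fin.val_zero, pow_zero, mul_one, Fin.val_succ, Nat.add_left_cancel_iff]
  exact Finset.sum_congr rfl fun i _ => by ring

lemma land_mask (n : ℕ) : ∀ (c : Fin n → ℕ) (h : Fin n → Bool), (∀ i, c i < 1024) →
    (∑ i, c i * 1024 ^ (i : ℕ)) &&& (∑ i, (h i).toNat * 1023 * 1024 ^ (i : ℕ)) =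
      ∑ i, (h i).toNat * c i * 1024 ^ (i : ℕ) := by
  induction n with
  | zero => intro c h _; simp
  | succ n ih =>
    intro c h hc
    rw [sum_digit n 1024 c, sum_digit n 1024 (fun i => (h i).toNat * 1023),
      sum_digit n 1024 (fun i => (h i).toNat * c i)]
    have h0 : (h 0).toNat * 1023 < 2 ^ 10 := by
      have := Bool.toNat_le (h 0)
      omega
    have h1 : c 0 < 2 ^ 10 := hc 0
    have h2 := land_digit 10 (c 0) ((h 0).toNat * 1023) (∑ i : Fin n, c i.succ * 1024 ^ (i : ℕ))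
      (∑ i : Fin n, (h i.succ).toNat * 1023 * 1024 ^ (i : ℕ)) h1 h0
    have h3 : c 0 &&& ((h 0).toNat * 1023) = (h 0).toNat * c 0 := by
      cases h 0 with
      | false => simp
      | true =>
        have := Nat.and_two_pow_sub_one_eq_mod (c 0) 10
        rw [Nat.mod_eq_of_lt h1] at this
        simpa using this
    rw [h3, ih (fun i => c i.succ) (fun i => h i.succ) (fun i => hc _)] at h2
    exact h2

lemma land_bits (n : ℕ) : ∀ U V : Fin n → Bool,
    (∑ i, (U i).toNat * 2 ^ (i : ℕ)) &&& (∑ i, (V i).toNat * 2 ^ (i : ℕ)) =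
      ∑ i, (U i && V i).toNat * 2 ^ (i : ℕ) := by
  induction n with
  | zero => intro U V; simp
  | succ n ih =>
    intro U V
    rw [sum_digit n 2 (fun i => (U i).toNat), sum_digit n 2 (fun i => (V i).toNat),
      sum_digit n 2 (fun i => (U i && V i).toNat)]
    have h0 : (U 0).toNat < 2 ^ 1 := by
      have := Bool.toNat_le (U 0)
      omega
    have h1 : (V 0).toNat < 2 ^ 1 := by
      have := Bool.toNat_le (V 0)
      omega
    have h2 := land_digit 1 (U 0).toNat (V 0).toNat (∑ i : Fin n, (U i.succ).toNat * 2 ^ (i : ℕ))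
      (∑ i : Fin n, (V i.succ).toNat * 2 ^ (i : ℕ)) h0 h1
    have h3 : (U 0).toNat &&& (V 0).toNat = (U 0 && V 0).toNat := by
      cases U 0 <;> cases V 0 <;> rfl
    rw [h3, ih (fun i => U i.succ) (fun i => V i.succ), pow_one] at h2
    exact h2

lemma bits_inj (n : ℕ) : ∀ U V : Fin n → Bool,
    ∑ i, (U i).toNat * 2 ^ (i : ℕ) = ∑ i, (V i).toNat * 2 ^ (i : ℕ) → U = V := by
  induction n with
  | zero => intro U V _; exact Subsingleton.elim _ _
  | succ n ih =>
    intro U V h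
    rw [sum_digit n 2 (fun i => (U i).toNat), sum_digit n 2 (fun i => (V i).toNat)] at h
    have h0 := Bool.toNat_le (U 0)
    have h1 := Bool.toNat_le (V 0)
    have h2 : (U 0).toNat = (V 0).toNat := by omega
    have h3 : ∑ i : Fin n, (U i.succ).toNat * 2 ^ (i : ℕ) =
        ∑ i : Fin n, (V i.succ).toNat * 2 ^ (i : ℕ) := by omega
    have h4 := ih (fun i => U i.succ) (fun i => V i.succ) h3
    have h5 : U 0 = V 0 := by
      revert h2
      cases U 0 <;> cases V 0 <;> simp
    funext i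
    refine Fin.cases h5 (fun j => ?_) i
    exact congrFun h4 j

lemma digit_sum_mod (n : ℕ) : ∀ c : Fin n → ℕ,
    (∑ i, c i * 1024 ^ (i : ℕ)) % 1023 = (∑ i, c i) % 1023 := by
  induction n with
  | zero => intro c; simp
  | succ n ih =>
    intro c
    rw [sum_digit n 1024 c, Fin.sum_univ_succ]
    have h := ih (fun i => c i.succ)
    omega

lemma exists_digits (n : ℕ) : ∀ N : ℕ, N < 1024 ^ n →
    ∃ c : Fin n → ℕ, (∀ i, c i < 1024) ∧ N = ∑ i, c i * 1024 ^ (i : ℕ) := by
  induction n with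
  | zero =>
    intro N hN
    refine ⟨fun _ => 0, fun i => i.elim0, ?_⟩
    simp at hN ⊢
    exact hN
  | succ n ih =>
    intro N hN
    have h1 : N / 1024 < 1024 ^ n := by
      rw [Nat.div_lt_iff_lt_mul (by norm_num)]
      rwa [pow_succ] at hN
    obtain ⟨c, hc, hs⟩ := ih (N / 1024) h1
    refine ⟨Fin.cons (N % 1024) c, fun i => ?_, ?_⟩
    · refine Fin.cases ?_ (fun j => ?_) i
      · simpa using Nat.mod_lt N (by norm_num)
      · simpa using hc j
    · rw [sum_digit n 1024]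
      simp only [Fin.cons_zero, Fin.cons_succ]
      rw [← hs]
      exact (Nat.mod_add_div N 1024).symm

theorem pack : PACK_S := by
  refine ⟨fun c h hc => ?_, fun c hc => ?_, fun U V => ?_, bits_inj 27, exists_digits 27⟩
  · have h1 := land_mask 27 c h hc
    have h2 : (∑ i, (h i).toNat * (1023 * 1024 ^ (i : ℕ))) =
        ∑ i, (h i).toNat * 1023 * 1024 ^ (i : ℕ) :=
      Finset.sum_congr rfl fun i _ => by ring
    rw [h2]
    exact h1
  · rw [digit_sum_mod, Nat.mod_eq_of_lt hc]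
  · exact land_bits 27 U V

end Pool.Agent.Lib.MP_17d4d1_pr.C.H74
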